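import Mathlib
import Pool.Agent.H50.NormEq

set_option autoImplicit false

namespace Pool.Agent.Results.MP_3f52e1_an.NoRate

open Matrix Filter Topology

/-- the product `A_n B_n ⋯ A_1 B_1` (sequences are indexed from `0`) -/
def P {N M : ℕ} (a : ℕ → Matrix (Fin N) (Fin M) ℝ) (b : ℕ → Matrix (Fin M) (Fin N) ℝ) :
    ℕ → Matrix (Fin N) (Fin N) ℝ
  | 0 => 1
  | n + 1 => a n * b n * P a b n

abbrev Mat := Matrix (Fin 6) (Fin 6) ℝ

noncomputable def W : Mat :=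
  !![1 / 2, 0, 0, 0, 0, 0; 0, 0, 0, 0, 0, 0; 0, 0, 8, 0, 0, 0; 0, 0, 8, 8, 0, 0;
    0, 0, 0, 0, 8, 0; 0, 0, 0, 0, 8, 8]
noncomputable def T : Mat :=
  !![0, 0, 0, 0, 0, 0; 1 / 2, 0, 0, 0, 8, 8; 0, 0, 0, 0, 0, 0; 0, 0, 0, 0, 0, 0;
    0, 0, 8, 0, 0, 0; 0, 0, -16, -16, 0, 0]
def S : Mat :=
  !![1, 1, 0, 0, 0, 0; 0, 0, 0, 0, 0, 0; 0, 0, 1, 0, 0, 0; 0, 0, 0, 1, 0, 0;
    0, 0, 0, 0, 1, 0; 0, 0, 0, 0, 0, 1]
def V : Mat :=
  !![1, 0, 0, 0, 0, 0; 0, 0, 0, 0, 0, 0; 0, 1, 1, 0, 0, 0; 0, 0, 0, 1, 0, 0;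
    0, 0, 0, 0, 1, 0; 0, 0, 0, 0, 0, 1]

theorem SW (v : Fin 6 → ℝ) :
    S *ᵥ W *ᵥ v = ![v 0 / 2, 0, 8 * v 2, 8 * (v 3 + v 2), 8 * v 4, 8 * (v 5 + v 4)] := by
  ext i; fin_cases i <;> simp [S, W, mulVec, dotProduct, Fin.sum_univ_six] <;> ring
theorem VW (v : Fin 6 → ℝ) :
    V *ᵥ W *ᵥ v = ![v 0 / 2, 0, 8 * v 2, 8 * (v 3 + v 2), 8 * v 4, 8 * (v 5 + v 4)] := by
  ext i; fin_cases i <;> simp [V, W, mulVec, dotProduct, Fin.sum_univ_six] <;> ring
theorem ST (v : Fin 6 → ℝ) :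
    S *ᵥ T *ᵥ v = ![v 0 / 2 + 8 * (v 5 + v 4), 0, 0, 0, 8 * v 2, -16 * (v 3 + v 2)] := by
  ext i; fin_cases i <;> simp [S, T, mulVec, dotProduct, Fin.sum_univ_six] <;> ring
theorem VT (v : Fin 6 → ℝ) :
    V *ᵥ T *ᵥ v = ![0, 0, v 0 / 2 + 8 * (v 5 + v 4), 0, 8 * v 2, -16 * (v 3 + v 2)] := by
  ext i; fin_cases i <;> simp [V, T, mulVec, dotProduct, Fin.sum_univ_six] <;> ring

theorem P_succ (a b : ℕ → Mat) (n : ℕ) (v : Fin 6 → ℝ) :
    P a b (n + 1) *ᵥ v = a n *ᵥ b n *ᵥ P a b n *ᵥ v := by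
  simp only [P, mulVec_mulVec, mul_assoc]

def Reach (b : ℕ → Mat) (n : ℕ) (v : Fin 6 → ℝ) : Prop :=
  ∃ a : ℕ → Mat, (∀ k, a k = S ∨ a k = V) ∧ ∃ j, P a b n *ᵥ Pi.single j 1 = v

theorem P_congr (a a' b : ℕ → Mat) (n : ℕ) (h : ∀ k < n, a k = a' k) : P a b n = P a' b n := by
  induction n with
  | zero => rfl
  | succ n ih => rw [P, P, h n (by omega), ih fun k hk => h k (by omega)]

theorem Reach.step {b : ℕ → Mat} {n : ℕ} {v : Fin 6 → ℝ} (h : Reach b n v) {A : Mat}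
    (hA : A = S ∨ A = V) {w : Fin 6 → ℝ} (hw : A *ᵥ b n *ᵥ v = w) : Reach b (n + 1) w := by
  obtain ⟨a, ha, j, hj⟩ := h
  refine ⟨Function.update a n A, fun k => ?_, j, ?_⟩
  · by_cases hk : k = n
    · subst hk; simpa using hA
    · simpa [Function.update_of_ne hk] using ha k
  · rw [P_succ, Function.update_self, ← P_congr a _ b n fun k hk => by
      rw [Function.update_of_ne hk.ne], hj, hw]

def mn (x : ℝ) : Fin 6 → ℝ := ![x, 0, 0, 0, 0, 0]
def s1 (x c : ℝ) : Fin 6 → ℝ := ![0, 0, x, x * c, 0, 0]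
def s2 (x c : ℝ) : Fin 6 → ℝ := ![0, 0, 0, 0, x, x * c]

theorem inv (b : ℕ → Mat) (hb : ∀ k, b k = W ∨ b k = T) (n : ℕ) : ∃ (X Y : ℝ) (s γ : ℕ),
    Reach b n (mn (X / 2 ^ s)) ∧ Reach b n (s1 (X * 8 ^ s) s) ∧ Reach b n (mn (Y / 2 ^ (γ + s))) ∧
      Reach b n (s2 (Y * 8 ^ (γ + s)) (s - 2 * γ)) ∧ 1 ≤ |X| * |Y| * 8 ^ γ := by
  induction n with
  | zero =>
    have h0 : ∀ j, Reach b 0 (Pi.single j 1) := fun j =>
      ⟨fun _ => S, fun _ => Or.inl rfl, j, by rw [P, one_mulVec]⟩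
    refine ⟨1, 1, 0, 0, ?_, ?_, ?_, ?_, by simp⟩
    · convert h0 0; ext i; fin_cases i <;> simp [mn]
    · convert h0 2; ext i; fin_cases i <;> simp [s1]
    · convert h0 0; ext i; fin_cases i <;> simp [mn]
    · convert h0 4; ext i; fin_cases i <;> simp [s2]
  | succ n ih =>
    obtain ⟨X, Y, s, γ, h1, h2, h3, h4, h5⟩ := ih
    rcases hb n with h | h
    · refine ⟨X, Y, s + 1, γ, h1.step (Or.inl rfl) ?_, h2.step (Or.inl rfl) ?_,
        h3.step (Or.inl rfl) ?_, h4.step (Or.inl rfl) ?_, h5⟩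
      all_goals rw [h, SW]; ext i; fin_cases i <;> simp [mn, s1, s2] <;> ring
    · have k3 : Reach b (n + 1) (mn (X / 2 ^ (s + 1 + 0))) := h1.step (Or.inl rfl) (by
        rw [h, ST]; ext i; fin_cases i <;> simp [mn] <;> ring)
      have k4 : Reach b (n + 1) (s2 (X * 8 ^ (s + 1 + 0)) ((0 : ℕ) - 2 * (s + 1 : ℕ))) :=
        h2.step (Or.inl rfl) (by rw [h, ST]; ext i; fin_cases i <;> simp [s1, s2] <;> ring)
      by_cases hm : s + 1 = 2 * γ
      · refine ⟨Y / 2 ^ (γ + s + 1), X, 0, s + 1, h3.step (Or.inl rfl) ?_, h3.step (Or.inr rfl) ?_,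
          k3, k4, ?_⟩
        · rw [h, ST]; ext i; fin_cases i <;> simp [mn] <;> ring
        · rw [h, VT]; ext i; fin_cases i <;> simp [mn, s1] <;> ring
        · rw [abs_div, abs_of_pos (by positivity : (0 : ℝ) < 2 ^ (γ + s + 1)), hm,
            show γ + s + 1 = 3 * γ by omega, pow_mul, two_mul, pow_add]
          convert h5 using 1
          norm_num
          field_simp
      · refine ⟨Y * 8 ^ (γ + s + 1) * (s + 1 - 2 * γ), X, 0, s + 1, h4.step (Or.inl rfl) ?_,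
          h4.step (Or.inr rfl) ?_, k3, k4, ?_⟩
        · rw [h, ST]; ext i; fin_cases i <;> simp [mn, s2] <;> ring
        · rw [h, VT]; ext i; fin_cases i <;> simp [s1, s2] <;> ring
        · have e1 : (1 : ℝ) ≤ |(s : ℝ) + 1 - 2 * γ| := by
            have : (1 : ℤ) ≤ |(s : ℤ) + 1 - 2 * γ| := Int.one_le_abs (by omega)
            exact_mod_cast this
          have e2 : (1 : ℝ) ≤ 8 ^ (s + 1) := one_le_pow₀ (by norm_num)
          rw [abs_mul, abs_mul, abs_of_pos (by positivity : (0 : ℝ) < 8 ^ (γ + s + 1)), add_assoc,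
            pow_add]
          calc (1 : ℝ) ≤ (|X| * |Y| * 8 ^ γ) * (8 ^ (s + 1) * |(s : ℝ) + 1 - 2 * γ| * 8 ^ (s + 1)) :=
                one_le_mul_of_one_le_of_one_le h5 (one_le_mul_of_one_le_of_one_le
                  (one_le_mul_of_one_le_of_one_le e2 e1) e2)
            _ = _ := by ring

theorem big (b : ℕ → Mat) (hb : ∀ k, b k = W ∨ b k = T) (n : ℕ) :
    ∃ a : ℕ → Mat, (∀ k, a k = S ∨ a k = V) ∧ ∃ i j, 1 ≤ |P a b n i j| := by
  obtain ⟨X, Y, s, γ, -, ⟨a, ha, j, h2⟩, -, ⟨a', ha', j', h4⟩, h5⟩ := inv b hb n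
  have e2 := congrFun h2 2
  have e4 := congrFun h4 4
  simp [s1, s2] at e2 e4
  by_contra hc
  push Not at hc
  have c1 := hc a ha 2 j
  have c2 := hc a' ha' 4 j'
  rw [e2, abs_mul, abs_of_pos (by positivity : (0 : ℝ) < 8 ^ s)] at c1
  rw [e4, abs_mul, abs_of_pos (by positivity : (0 : ℝ) < 8 ^ (γ + s)), pow_add] at c2
  have e : (1 : ℝ) ≤ 8 ^ s := one_le_pow₀ (by norm_num)
  have d1 : |X| < 1 := lt_of_le_of_lt (le_mul_of_one_le_right (abs_nonneg _) e) c1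
  have d2 : |Y| * 8 ^ γ < 1 := by
    rw [← mul_assoc] at c2
    exact lt_of_le_of_lt (le_mul_of_one_le_right (by positivity) e) c2
  have : |X| * (|Y| * 8 ^ γ) < 1 := mul_lt_one_of_nonneg_of_lt_one_left (abs_nonneg _) d1 d2.le
  nlinarith

open Classical in
noncomputable def bb (n : ℕ) : Mat := if ∃ k, n + 1 = 2 ^ k then T else W

theorem abs_lem (t : ℕ → Prop) (ht : ∀ n, ∃ m ≥ n, t m) (x y : ℕ → ℝ) (n0 : ℕ)
    (h : ∀ n ≥ n0, (¬ t n → y (n + 1) = 8 * y n) ∧ (t n → x n = 0 → y (n + 1) = 0))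
    (hx : ∀ n ≥ n0, t n → x n = 0) : ∃ n1 ≥ n0, ∀ n ≥ n1, y n = 0 := by
  obtain ⟨m, hm, htm⟩ := ht n0
  refine ⟨m + 1, by omega, fun n hn => ?_⟩
  induction n, hn using Nat.le_induction with
  | base => exact (h m hm).2 htm (hx m hm htm)
  | succ n hn ih =>
    by_cases htn : t n
    · exact (h n (by omega)).2 htn (hx n (by omega) htn)
    · rw [(h n (by omega)).1 htn, ih, mul_zero]

theorem uinv (a : ℕ → Mat) (ha : ∀ k, a k = S ∨ a k = V) (v : Fin 6 → ℝ) (n : ℕ) (hn : 2 ≤ n) :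
    ∃ k, 2 ^ k ≤ n ∧ n < 2 ^ (k + 1) ∧ (P a bb n *ᵥ v) 1 = 0 ∧
      (P a bb n *ᵥ v) 3 = (n - 2 ^ k) * (P a bb n *ᵥ v) 2 ∧
      (P a bb n *ᵥ v) 5 = (n - 2 ^ (k + 1)) * (P a bb n *ᵥ v) 4 := by
  induction n, hn using Nat.le_induction with
  | base =>
    have b0 : bb 0 = T := if_pos ⟨0, rfl⟩
    have b1 : bb 1 = T := if_pos ⟨1, rfl⟩
    refine ⟨1, le_rfl, by norm_num, ?_⟩
    rw [P_succ, P_succ, b0, b1]
    rcases ha 0 with h0 | h0 <;> rcases ha 1 with h1 | h1 <;> simp [h0, h1, ST, VT, -mulVec_mulVec] <;> ring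
  | succ n hn ih =>
    obtain ⟨k, h1, h2, -, h4, h5⟩ := ih
    rw [P_succ]
    by_cases hk : n + 1 = 2 ^ (k + 1)
    · have b0 : bb n = T := if_pos ⟨_, hk⟩
      have hk' : (n : ℝ) = 2 * 2 ^ k - 1 := by
        have : ((n + 1 : ℕ) : ℝ) = 2 ^ (k + 1) := by exact_mod_cast hk
        push_cast at this; rw [pow_succ] at this; linarith
      refine ⟨k + 1, by omega, by rw [pow_succ]; omega, ?_⟩
      rcases ha n with h0 | h0 <;> simp [h0, b0, ST, VT, h4, hk', -mulVec_mulVec] <;>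
        ring_nf <;> simp
    · have b0 : bb n = W := by
        refine if_neg ?_
        rintro ⟨m, hm⟩
        have c1 : k < m := (Nat.pow_lt_pow_iff_right (by norm_num : 1 < 2)).1 (by omega)
        have c2 : m < k + 1 := (Nat.pow_lt_pow_iff_right (by norm_num : 1 < 2)).1 (by omega)
        omega
      refine ⟨k, by omega, by omega, ?_⟩
      rcases ha n with h0 | h0 <;> simp [h0, b0, SW, VW, h4, h5, -mulVec_mulVec] <;> constructor <;> ring

theorem conv (a : ℕ → Mat) (ha : ∀ k, a k = S ∨ a k = V) (v : Fin 6 → ℝ) (i : Fin 6) :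
    Tendsto (fun n => (P a bb n *ᵥ v) i) atTop (𝓝 0) := by
  set u := fun n => P a bb n *ᵥ v with hu
  let t : ℕ → Prop := fun n => ∃ k, n + 1 = 2 ^ k
  have ht : ∀ n, ∃ m ≥ n, t m := fun n => ⟨2 ^ (n + 1) - 1, by
    have := Nat.lt_two_pow_self (n := n + 1); omega, n + 1, by
    have := Nat.lt_two_pow_self (n := n + 1); omega⟩
  have hW : ∀ n, ¬ t n → u (n + 1) 0 = u n 0 / 2 ∧ u (n + 1) 2 = 8 * u n 2 ∧
      u (n + 1) 4 = 8 * u n 4 := by
    intro n hn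
    have b0 : bb n = W := if_neg hn
    simp only [hu, P_succ]
    rcases ha n with h0 | h0 <;> simp [h0, b0, SW, VW, -mulVec_mulVec]
  have hT : ∀ n ≥ 2, t n → ((u (n + 1) 0 = u n 0 / 2 ∧ u (n + 1) 2 = 0) ∨
      (u (n + 1) 0 = 0 ∧ u (n + 1) 2 = u n 0 / 2)) ∧ u (n + 1) 4 = 8 * u n 2 := by
    intro n hn htn
    have b0 : bb n = T := if_pos htn
    obtain ⟨k, h1, h2, -, -, h5⟩ := uinv a ha v n hn
    obtain ⟨m, hm⟩ := htn
    have c1 : k < m := (Nat.pow_lt_pow_iff_right (by norm_num : 1 < 2)).1 (by omega)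
    have c2 : m ≤ k + 1 := (Nat.pow_le_pow_iff_right (by norm_num : 1 < 2)).1 (by omega)
    obtain rfl : m = k + 1 := by omega
    have hk' : (n : ℝ) - 2 ^ (k + 1) = -1 := by
      have : ((n + 1 : ℕ) : ℝ) = 2 ^ (k + 1) := by exact_mod_cast hm
      push_cast at this; linarith
    rw [hk'] at h5
    simp only [hu, P_succ]
    rcases ha n with h0 | h0 <;> simp [h0, b0, ST, VT, h5, -mulVec_mulVec]
  have h0 : ∀ n ≥ 2, u (n + 1) 0 = u n 0 / 2 ∨ u (n + 1) 0 = 0 := fun n hn => by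
    by_cases htn : t n
    · rcases (hT n hn htn).1 with h | h
      · exact Or.inl h.1
      · exact Or.inr h.1
    · exact Or.inl (hW n htn).1
  obtain ⟨n1, hn1, h1⟩ : ∃ n1 ≥ 2, ∀ n ≥ n1, u n 2 = 0 := by
    by_cases hz : ∃ m ≥ 2, u m 0 = 0
    · obtain ⟨m, hm, hz⟩ := hz
      have hz' : ∀ n ≥ m, u n 0 = 0 := fun n hn => by
        induction n, hn using Nat.le_induction with
        | base => exact hz
        | succ n hn ih => rcases h0 n (by omega) with h | h <;> simp [h, ih]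
      obtain ⟨n1, h1, h2⟩ := abs_lem t ht (fun n => u n 0) (fun n => u n 2) m
        (fun n hn => ⟨fun h => (hW n h).2.1, fun h e => by
          rcases (hT n (by omega) h).1 with h | h
          · exact h.2
          · rw [h.2, e, zero_div]⟩) fun n hn _ => hz' n hn
      exact ⟨n1, by omega, h2⟩
    · push Not at hz
      exact abs_lem t ht (fun _ => 0) (fun n => u n 2) 2
        (fun n hn => ⟨fun h => (hW n h).2.1, fun h _ => by
          rcases (hT n hn h).1 with h | h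
          · exact h.2
          · exact absurd h.1 (hz _ (by omega))⟩) fun _ _ _ => rfl
  obtain ⟨n2, hn2, h2⟩ := abs_lem t ht (fun n => u n 2) (fun n => u n 4) n1
    (fun n hn => ⟨fun h => (hW n h).2.2, fun h e => by
      rw [(hT n (by omega) h).2, e]; simp⟩) fun n hn _ => h1 n hn
  have hev : ∀ j : Fin 6, (∀ n ≥ n2, u n j = 0) → Tendsto (fun n => u n j) atTop (𝓝 0) :=
    fun j h => tendsto_const_nhds.congr' (by
      filter_upwards [eventually_ge_atTop n2] with n hn using (h n hn).symm)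
  fin_cases i
  · have hb : ∀ n, |u (n + 2) 0| ≤ |u 2 0| * (1 / 2) ^ n := fun n => by
      induction n with
      | zero => simp
      | succ n ih =>
        rcases h0 (n + 2) (by omega) with h | h
        · rw [show n + 1 + 2 = n + 2 + 1 by omega, h, abs_div, pow_succ, abs_two]; linarith
        · rw [show n + 1 + 2 = n + 2 + 1 by omega, h, abs_zero]; positivity
    rw [← tendsto_add_atTop_iff_nat 2]
    refine squeeze_zero_norm hb ?_
    simpa using (tendsto_pow_atTop_nhds_zero_of_lt_one (r := (1 / 2 : ℝ)) (by norm_num)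
      (by norm_num)).const_mul |u 2 0|
  · exact hev 1 fun n hn => by
      obtain ⟨k, -, -, h, -⟩ := uinv a ha v n (by omega); exact h
  · exact hev 2 fun n hn => h1 n (by omega)
  · exact hev 3 fun n hn => by
      obtain ⟨k, -, -, -, h, -⟩ := uinv a ha v n (by omega)
      have := h1 n (by omega)
      simp only [hu] at this ⊢; rw [h, this, mul_zero]
  · exact hev 4 h2
  · exact hev 5 fun n hn => by
      obtain ⟨k, -, -, -, -, h⟩ := uinv a ha v n (by omega)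
      have := h2 n hn
      simp only [hu] at this ⊢; rw [h, this, mul_zero]

theorem result : ∃ (N M : ℕ) (𝒜 : Finset (Matrix (Fin N) (Fin M) ℝ))
    (ℬ : Finset (Matrix (Fin M) (Fin N) ℝ)), 1 ≤ N ∧ 1 ≤ M ∧ 𝒜.Nonempty ∧ ℬ.Nonempty ∧
    ∀ ν : Seminorm ℝ (Matrix (Fin N) (Fin N) ℝ), (∀ X, ν X = 0 → X = 0) →
      (∃ b : ℕ → Matrix (Fin M) (Fin N) ℝ, (∀ n, b n ∈ ℬ) ∧
        ∀ a : ℕ → Matrix (Fin N) (Fin M) ℝ, (∀ n, a n ∈ 𝒜) →
          Tendsto (fun n => ν (P a b n)) atTop (𝓝 0)) ∧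
      ∀ b : ℕ → Matrix (Fin M) (Fin N) ℝ, (∀ n, b n ∈ ℬ) → ∀ C l : ℝ, 0 < C → 0 < l → l < 1 →
        ∃ (a : ℕ → Matrix (Fin N) (Fin M) ℝ) (n : ℕ), (∀ k, a k ∈ 𝒜) ∧ 1 ≤ n ∧
          C * l ^ n < ν (P a b n) := by
  classical
  refine ⟨6, 6, {S, V}, {W, T}, by norm_num, by norm_num, by simp, by simp, fun ν hν => ?_⟩
  obtain ⟨⟨D, hD, h1⟩, E, hE, h2⟩ := Pool.Agent.H50.NormEq.both ν hν
  refine ⟨⟨bb, fun n => by unfold bb; split_ifs <;> simp, fun a ha => ?_⟩, fun b hb C l hC h0 hl => ?_⟩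
  · have ha' : ∀ k, a k = S ∨ a k = V := fun k => by simpa using ha k
    have h3 : Tendsto (fun n => E * ∑ i, ∑ j, |P a bb n i j|) atTop (𝓝 (E * ∑ i : Fin 6, ∑ j : Fin 6, |0|)) :=
      (tendsto_finsetSum _ fun i _ => tendsto_finsetSum _ fun j _ => by
        simpa using (conv a ha' (Pi.single j 1) i).abs).const_mul E
    simp only [abs_zero, Finset.sum_const_zero, mul_zero] at h3
    refine squeeze_zero (fun n => apply_nonneg _ _) (fun n => h2 _ _ (by positivity) fun i j => ?_) h3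
    exact (Finset.single_le_sum (f := fun j => |P a bb n i j|) (fun _ _ => abs_nonneg _)
      (Finset.mem_univ j)).trans (Finset.single_le_sum (f := fun i => ∑ j, |P a bb n i j|)
        (fun _ _ => by positivity) (Finset.mem_univ i))
  · have h3 : Tendsto (fun n => C * l ^ n) atTop (𝓝 (C * 0)) :=
      (tendsto_pow_atTop_nhds_zero_of_lt_one h0.le hl).const_mul C
    rw [mul_zero] at h3
    obtain ⟨n, hn1, hn2⟩ := ((h3.eventually (gt_mem_nhds (one_div_pos.2 hD))).and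
      (eventually_ge_atTop 1)).exists
    obtain ⟨a, ha, i, j, h⟩ := big b (fun k => by simpa using hb k) n
    refine ⟨a, n, fun k => by simpa using ha k, hn2, hn1.trans_le ?_⟩
    rw [div_le_iff₀ hD]
    have := h1 (P a b n) i j
    linarith

end Pool.Agent.Results.MP_3f52e1_an.NoRate
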